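import Pool.Agent.Q302.LM.Model

/-!
# Functions of finite type on groups and words with polynomial exponents
-/

set_option autoImplicit false

namespace Pool.Agent.Q302.LM

open MvPolynomial

variable {G : Type*} [Group G]

/-- the alternating sum `∑ (-1)^(m - |ε|) w (h f_1^{ε_1} ... f_m^{ε_m})` over `ε ∈ {0,1}^m` -/
def alt (w : G → ℚ) : List G → G → ℚ
  | [], h => w h
  | f :: l, h => alt w l (h * f) - alt w l h

/-- all alternating sums with `m + 1` elements vanish -/
def Kill (m : ℕ) (w : G → ℚ) : Prop := ∀ l : List G, l.length = m + 1 → ∀ h, alt w l h = 0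

lemma alt_append (w : G → ℚ) (l₁ l₂ : List G) (h : G) :
    alt w (l₁ ++ l₂) h = alt (alt w l₂) l₁ h := by
  induction l₁ generalizing h with
  | nil => rfl
  | cons f l ih => simp only [List.cons_append, alt, ih]

lemma alt_add (w w' : G → ℚ) (l : List G) (h : G) :
    alt (fun x => w x + w' x) l h = alt w l h + alt w' l h := by
  induction l generalizing h with
  | nil => rfl
  | cons f l ih => simp only [alt, ih]; ring

/-- right translate -/
def tr (y : G) (w : G → ℚ) : G → ℚ := fun h => w (h * y)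

lemma alt_tr (y : G) (w : G → ℚ) (l : List G) (h : G) :
    alt (tr y w) l h = alt w (l.map fun f => y⁻¹ * f * y) (h * y) := by
  induction l generalizing h with
  | nil => rfl
  | cons f l ih =>
    simp only [alt, List.map_cons, ih]
    congr 2
    group

lemma Kill.tr {m : ℕ} {w : G → ℚ} (hw : Kill m w) (y : G) : Kill m (tr y w) := by
  intro l hl h
  rw [alt_tr]
  exact hw _ (by simpa using hl) _

lemma Kill.alt {m : ℕ} {w : G → ℚ} (hw : Kill m w) {j : ℕ} (hj : j ≤ m) {l : List G}
    (hl : l.length = j) : Kill (m - j) (alt w l) := by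
  intro l' hl' h
  rw [← alt_append]
  exact hw _ (by simp [hl, hl']; omega) _

lemma Kill.succ {m : ℕ} {w : G → ℚ} (hw : Kill m w) : Kill (m + 1) w := by
  intro l hl h
  match l, hl with
  | f :: l, hl =>
    simp only [List.length_cons, Nat.add_right_cancel_iff] at hl
    simp only [LM.alt, hw l hl]
    ring

lemma Kill.mono {m m' : ℕ} (h : m ≤ m') {w : G → ℚ} (hw : Kill m w) : Kill m' w := by
  induction h with
  | refl => exact hw
  | step _ ih => exact ih.succ

/-- the binomial polynomial -/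
noncomputable def bp (j : ℕ) : Polynomial ℚ := Polynomial.C (1 / (j.factorial : ℚ)) *
  (descPochhammer ℚ j)

lemma bp_eval (N : ℤ) (j : ℕ) : (bp j).eval (N : ℚ) = (Ring.choose N j : ℤ) := by
  have h := Ring.descPochhammer_eq_factorial_smul_choose N j
  have h2 : (descPochhammer ℚ j).eval (N : ℚ) = ((descPochhammer ℤ j).eval N : ℤ) := by
    rw [← descPochhammer_map (Int.castRingHom ℚ) j, Polynomial.eval_map, Polynomial.eval₂_at_intCast]
    simp
  rw [← Polynomial.eval_eq_smeval] at h
  unfold bp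
  rw [Polynomial.eval_mul, Polynomial.eval_C, h2]
  rw [h, nsmul_eq_mul]
  push_cast
  have : (j.factorial : ℚ) ≠ 0 := by exact_mod_cast j.factorial_ne_zero
  field_simp

lemma choose_succ (N : ℤ) (j : ℕ) :
    ((Ring.choose (N + 1) (j + 1) : ℤ) : ℚ) = (Ring.choose N j : ℤ) + (Ring.choose N (j + 1) : ℤ) := by
  rw [Ring.choose_succ_succ]; push_cast; rfl

/-- the partial binomial expansion -/
noncomputable def R (w : G → ℚ) (f : G) (m : ℕ) (N : ℤ) (h : G) : ℚ :=
  ∑ j ∈ Finset.range (m + 1), ((Ring.choose N j : ℤ) : ℚ) * alt w (List.replicate j f) h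

lemma R_step {m : ℕ} {w : G → ℚ} (hw : Kill m w) (f : G) (N : ℤ) (h : G) :
    R w f m (N + 1) h = R w f m N (h * f) := by
  have h1 : ∀ j, alt w (List.replicate j f) (h * f) =
      alt w (List.replicate j f) h + alt w (List.replicate (j + 1) f) h := by
    intro j
    rw [List.replicate_succ]
    simp only [alt]
    ring
  have h2 : R w f m N (h * f) = R w f m N h +
      ∑ j ∈ Finset.range (m + 1), ((Ring.choose N j : ℤ) : ℚ) *
        alt w (List.replicate (j + 1) f) h := by
    unfold R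
    rw [← Finset.sum_add_distrib]
    exact Finset.sum_congr rfl fun j _ => by rw [h1]; ring
  rw [h2, Finset.sum_range_succ, hw (List.replicate (m + 1) f) (by simp), mul_zero, add_zero]
  unfold R
  rw [Finset.sum_range_succ' (fun j => ((Ring.choose (N + 1) j : ℤ) : ℚ) *
    alt w (List.replicate j f) h), Finset.sum_range_succ' (fun j => ((Ring.choose N j : ℤ) : ℚ) *
    alt w (List.replicate j f) h)]
  simp only [Ring.choose_zero_right, Int.cast_one, one_mul]
  rw [add_right_comm, ← Finset.sum_add_distrib]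
  congr 1
  exact Finset.sum_congr rfl fun j _ => by rw [choose_succ]; ring

lemma expand {m : ℕ} {w : G → ℚ} (hw : Kill m w) (f : G) (N : ℤ) (h : G) :
    w (h * f ^ N) = R w f m N h := by
  induction N using Int.induction_on generalizing h with
  | zero =>
    unfold R
    rw [Finset.sum_range_succ']
    simp only [Ring.choose_zero_right, Int.cast_one, one_mul, zpow_zero, mul_one]
    rw [Finset.sum_eq_zero]
    · simp [alt]
    · intro j _
      rw [Ring.choose_zero_succ]
      simp
  | succ i ih =>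
    rw [R_step hw, ← ih, mul_assoc, ← zpow_one_add, add_comm]
  | pred i ih =>
    have h1 := ih (h * f⁻¹)
    have h2 := R_step hw f (-(i : ℤ) - 1) (h * f⁻¹)
    rw [sub_add_cancel, inv_mul_cancel_right] at h2
    rw [← h2, ← h1, mul_assoc, ← zpow_neg_one, ← zpow_add, add_comm, ← sub_eq_add_neg]

variable {k : ℕ}

theorem poly (L : List (G × G × MvPolynomial (Fin k) ℤ)) :
    ∀ (m : ℕ) (w : G → ℚ), Kill m w → ∀ x : G, ∃ p : MvPolynomial (Fin k) ℚ, ∀ n : Fin k → ℤ,
      w (x * wordValue L n) = MvPolynomial.eval (fun i => (n i : ℚ)) p := by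
  induction L using List.reverseRecOn with
  | nil =>
    intro m w _ x
    exact ⟨C (w x), fun n => by simp [wordValue]⟩
  | append_singleton L a ih =>
    obtain ⟨h, f, e⟩ := a
    intro m w hw x
    have hj : ∀ j ∈ Finset.range (m + 1), ∃ p : MvPolynomial (Fin k) ℚ, ∀ n : Fin k → ℤ,
        tr h (alt w (List.replicate j f)) (x * wordValue L n) =
          MvPolynomial.eval (fun i => (n i : ℚ)) p := by
      intro j hj
      have hj' : j ≤ m := by simpa [Nat.lt_succ_iff] using hj
      exact ih (m - j) _ ((hw.alt hj' (by simp)).tr h) x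
    choose! p hp using hj
    refine ⟨∑ j ∈ Finset.range (m + 1),
      Polynomial.aeval (MvPolynomial.map (Int.castRingHom ℚ) e) (bp j) * p j, fun n => ?_⟩
    rw [map_sum]
    have h1 : x * wordValue (L ++ [(h, f, e)]) n = (x * wordValue L n * h) * f ^ (MvPolynomial.eval n e) := by
      simp only [wordValue, List.map_append, List.map_cons, List.map_nil, List.prod_append,
        List.prod_singleton, mul_assoc]
    rw [h1, expand hw]
    unfold R
    refine Finset.sum_congr rfl fun j hj => ?_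
    rw [map_mul, ← hp j hj n]
    have h2 : MvPolynomial.eval (fun i => (n i : ℚ))
        (Polynomial.aeval (MvPolynomial.map (Int.castRingHom ℚ) e) (bp j)) =
        ((Ring.choose (MvPolynomial.eval n e) j : ℤ) : ℚ) := by
      rw [← bp_eval]
      have h3 : MvPolynomial.eval (fun i => (n i : ℚ)) (MvPolynomial.map (Int.castRingHom ℚ) e) =
          ((MvPolynomial.eval n e : ℤ) : ℚ) := by
        rw [MvPolynomial.eval_map]
        exact (MvPolynomial.eval₂_comp_left (Int.castRingHom ℚ) (RingHom.id ℤ) n e).symm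
      have h4 : (MvPolynomial.eval (fun i => (n i : ℚ))).comp
          (algebraMap ℚ (MvPolynomial (Fin k) ℚ)) = RingHom.id ℚ := Subsingleton.elim _ _
      rw [← h3, Polynomial.aeval_def, Polynomial.hom_eval₂, h4]
      rfl
    rw [h2]
    rfl

theorem poly_val (L : List (G × G × MvPolynomial (Fin k) ℤ)) {m : ℕ} {w : G → ℚ}
    (hw : Kill m w) : ∃ p : MvPolynomial (Fin k) ℚ, ∀ n : Fin k → ℤ,
      w (wordValue L n) = MvPolynomial.eval (fun i => (n i : ℚ)) p := by
  obtain ⟨p, hp⟩ := poly L m w hw 1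
  exact ⟨p, fun n => by simpa using hp n⟩

/-! ### Noetherian consequences -/

theorem noeth {σ : Type*} [Finite σ] {ι : Type*} (deg : ι → ℕ) (p : ι → MvPolynomial σ ℚ) :
    ∃ (m : ℕ) (S : Finset (MvPolynomial σ ℚ)), (∀ q ∈ S, ∃ i, deg i ≤ m ∧ p i = q) ∧
      ∀ x : σ → ℚ, (∀ q ∈ S, eval x q = 0) → ∀ i, eval x (p i) = 0 := by
  classical
  have hfg : (Submodule.span (MvPolynomial σ ℚ) (Set.range p)).FG :=
    IsNoetherian.noetherian _
  obtain ⟨S, hS, hspan⟩ := (Submodule.fg_span_iff_fg_span_finset_subset _).1 hfg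
  have hS' : ∀ q : S, ∃ i, p i = q := fun q => hS q.2
  choose f hf using hS'
  refine ⟨Finset.univ.sup (fun q : S => deg (f q)), S, fun q hq => ⟨f ⟨q, hq⟩,
    Finset.le_sup (f := fun q : S => deg (f q)) (Finset.mem_univ _), hf ⟨q, hq⟩⟩, fun x hx i => ?_⟩
  have h1 : p i ∈ Submodule.span (MvPolynomial σ ℚ) (S : Set (MvPolynomial σ ℚ)) := by
    rw [← hspan]; exact Submodule.subset_span ⟨i, rfl⟩
  have h2 : Submodule.span (MvPolynomial σ ℚ) (S : Set (MvPolynomial σ ℚ)) ≤
      RingHom.ker (eval x) := by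
    rw [Submodule.span_le]
    intro q hq
    exact hx q hq
  exact h2 h1

variable {A : Type*}

/-- two families are compared by finitely many polynomials, which come from bounded degree -/
theorem pair {k' : ℕ} (Q : ℕ → (A → ℚ) → Prop)
    (P : (Fin k → ℤ) → A) (P' : (Fin k' → ℤ) → A)
    (hP : ∀ m v, Q m v → ∃ p : MvPolynomial (Fin k) ℚ, ∀ n, v (P n) = eval (fun i => (n i : ℚ)) p)
    (hP' : ∀ m v, Q m v → ∃ p : MvPolynomial (Fin k') ℚ,
      ∀ n, v (P' n) = eval (fun i => (n i : ℚ)) p) :
    ∃ (m : ℕ) (S : Finset (MvPolynomial (Fin k ⊕ Fin k') ℚ)), ∀ n n',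
      ((∀ j ≤ m, ∀ v, Q j v → v (P n) = v (P' n')) ↔
        ∀ q ∈ S, eval (Sum.elim (fun i => (n i : ℚ)) (fun i => (n' i : ℚ))) q = 0) ∧
      ((∀ q ∈ S, eval (Sum.elim (fun i => (n i : ℚ)) (fun i => (n' i : ℚ))) q = 0) →
        ∀ j, ∀ v, Q j v → v (P n) = v (P' n')) := by
  classical
  choose! p hp using hP
  choose! p' hp' using hP'
  let ι := {t : ℕ × (A → ℚ) // Q t.1 t.2}
  let pp : ι → MvPolynomial (Fin k ⊕ Fin k') ℚ := fun t =>
    rename Sum.inl (p t.1.1 t.1.2) - rename Sum.inr (p' t.1.1 t.1.2)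
  have hpp : ∀ (t : ι) n n', eval (Sum.elim (fun i => (n i : ℚ)) (fun i => (n' i : ℚ))) (pp t) =
      t.1.2 (P n) - t.1.2 (P' n') := by
    intro t n n'
    simp only [pp, map_sub, eval_rename]
    rw [hp _ _ t.2, hp' _ _ t.2]
    rfl
  obtain ⟨m, S, hS, h⟩ := noeth (fun t : ι => t.1.1) pp
  refine ⟨m, S, fun n n' => ⟨⟨fun hs q hq => ?_, fun hs j hj v hv => ?_⟩, fun hs j v hv => ?_⟩⟩
  · obtain ⟨t, ht, rfl⟩ := hS q hq
    rw [hpp, hs _ ht _ t.2, sub_self]
  · have := h _ hs ⟨(j, v), hv⟩
    rw [hpp] at this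
    exact sub_eq_zero.1 this
  · have := h _ hs ⟨(j, v), hv⟩
    rw [hpp] at this
    exact sub_eq_zero.1 this

/-! ### Counting -/

lemma count (p : MvPolynomial (Fin k) ℚ) (c : ℚ) (hp : ∀ a, p ≠ C a) (L : ℕ) :
    ((Fintype.piFinset fun _ : Fin k => Finset.Icc (-(L : ℤ)) L).filter
      (fun n => eval (fun i => (n i : ℚ)) p = c)).card * (2 * L + 1) ≤
      p.totalDegree * (2 * L + 1) ^ k := by
  classical
  have hne : p - C c ≠ 0 := fun h => hp c (sub_eq_zero.1 h)
  have h := schwartz_zippel_totalDegree hne ((Finset.Icc (-(L : ℤ)) L).image (fun z : ℤ => (z : ℚ)))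
  have hcard : ((Finset.Icc (-(L : ℤ)) L).image (fun z : ℤ => (z : ℚ))).card = 2 * L + 1 := by
    rw [Finset.card_image_of_injective _ Int.cast_injective, Int.card_Icc]
    omega
  rw [hcard] at h
  have hdeg : (p - C c).totalDegree ≤ p.totalDegree := by
    exact (totalDegree_sub _ _).trans (by simp)
  have hle : ((Fintype.piFinset fun _ : Fin k => Finset.Icc (-(L : ℤ)) L).filter
      (fun n => eval (fun i => (n i : ℚ)) p = c)).card ≤
      ((Fintype.piFinset fun _ : Fin k =>
        ((Finset.Icc (-(L : ℤ)) L).image (fun z : ℤ => (z : ℚ)))).filter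
        (fun f => eval f (p - C c) = 0)).card := by
    apply Finset.card_le_card_of_injOn (fun n i => (n i : ℚ))
    · intro n hn
      simp only [Finset.coe_filter, Fintype.mem_piFinset, Set.mem_ofPred_eq, Finset.mem_image] at hn ⊢
      exact ⟨fun i => ⟨n i, hn.1 i, rfl⟩, by simp [hn.2]⟩
    · intro n _ n' _ h
      funext i
      have h := congrFun h i
      simp only at h
      exact_mod_cast h
  have h2 : (2 * (L : ℚ≥0) + 1) ≠ 0 := by positivity
  have h3 : (((Fintype.piFinset fun _ : Fin k =>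
        ((Finset.Icc (-(L : ℤ)) L).image (fun z : ℤ => (z : ℚ)))).filter
        (fun f => eval f (p - C c) = 0)).card : ℚ≥0) * (2 * L + 1) ≤
      (p - C c).totalDegree * (2 * L + 1) ^ k := by
    have h4 : (((2 * L + 1 : ℕ) : ℚ≥0)) = 2 * (L : ℚ≥0) + 1 := by push_cast; ring
    rw [h4] at h
    rw [div_le_div_iff₀ (by positivity) (by positivity)] at h
    exact h
  have h5 : ((Fintype.piFinset fun _ : Fin k =>
        ((Finset.Icc (-(L : ℤ)) L).image (fun z : ℤ => (z : ℚ)))).filter
        (fun f => eval f (p - C c) = 0)).card * (2 * L + 1) ≤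
      (p - C c).totalDegree * (2 * L + 1) ^ k := by
    exact_mod_cast h3
  calc _ ≤ _ := Nat.mul_le_mul_right _ hle
    _ ≤ _ := h5
    _ ≤ _ := Nat.mul_le_mul_right _ hdeg

end Pool.Agent.Q302.LM
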