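import Mathlib

/-!
# When does a polynomial take the same value at two integers?
-/

set_option autoImplicit false

namespace Pool.Agent.Q302.LM

open Polynomial Filter

lemma ev_large (D : ℚ[X]) (hd : 0 < D.natDegree) (h : 0 < D.leadingCoeff) (M : ℚ) :
    ∃ B : ℤ, ∀ n : ℤ, B ≤ n → M < D.eval (n : ℚ) := by
  have h1 := D.tendsto_atTop_of_leadingCoeff_nonneg (natDegree_pos_iff_degree_pos.1 hd) h.le
  have h2 := h1.comp (tendsto_intCast_atTop_atTop (R := ℚ))
  obtain ⟨B, hB⟩ := eventually_atTop.1 (h2.eventually_gt_atTop M)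
  exact ⟨B, fun n hn => hB n hn⟩

lemma ev_pos (D : ℚ[X]) (h : 0 < D.leadingCoeff) :
    ∃ B : ℤ, ∀ n : ℤ, B ≤ n → 0 < D.eval (n : ℚ) := by
  rcases Nat.eq_zero_or_pos D.natDegree with h0 | h0
  · refine ⟨0, fun n _ => ?_⟩
    rw [eq_C_of_natDegree_eq_zero h0, eval_C]
    rwa [leadingCoeff, h0] at h
  · exact ev_large D h0 h 0

lemma ev_mono (D : ℚ[X]) (hd : 0 < D.natDegree) (h : 0 < D.leadingCoeff) :
    ∃ B : ℤ, ∀ n m : ℤ, B ≤ n → n < m → D.eval (n : ℚ) < D.eval (m : ℚ) := by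
  have key : ∃ B : ℤ, ∀ n : ℤ, B ≤ n → D.eval (n : ℚ) < D.eval ((n + 1 : ℤ) : ℚ) := by
    set E := D.comp (X + 1) - D with hE
    have hev : ∀ n : ℤ, E.eval (n : ℚ) = D.eval ((n + 1 : ℤ) : ℚ) - D.eval (n : ℚ) := by
      intro n; simp [hE, eval_comp]
    by_cases hl : 0 < E.leadingCoeff
    · obtain ⟨B, hB⟩ := ev_pos E hl
      exact ⟨B, fun n hn => by have := hB n hn; rw [hev] at this; linarith⟩
    · exfalso
      have : ∃ B : ℤ, ∀ n : ℤ, B ≤ n → D.eval ((n + 1 : ℤ) : ℚ) ≤ D.eval (n : ℚ) := by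
        rcases eq_or_ne E 0 with h0 | h0
        · exact ⟨0, fun n _ => by have := hev n; rw [h0, eval_zero] at this; linarith⟩
        · have h1 : E.leadingCoeff < 0 :=
            lt_of_le_of_ne (not_lt.1 hl) (leadingCoeff_ne_zero.2 h0)
          obtain ⟨B, hB⟩ := ev_pos (-E) (by rw [leadingCoeff_neg]; linarith)
          refine ⟨B, fun n hn => ?_⟩
          have := hB n hn
          rw [eval_neg, hev] at this
          linarith
      obtain ⟨B, hB⟩ := this
      have h2 : ∀ n : ℤ, B ≤ n → D.eval (n : ℚ) ≤ D.eval (B : ℚ) := by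
        intro n hn
        induction n, hn using Int.leInduction with
        | base => exact le_rfl
        | succ n hn ih => exact (hB n hn).trans ih
      obtain ⟨B', hB'⟩ := ev_large D hd h (D.eval (B : ℚ))
      have h3 := hB' (max B B') (le_max_right _ _)
      have h4 := h2 (max B B') (le_max_left _ _)
      linarith
  obtain ⟨B, hB⟩ := key
  refine ⟨B, fun n m hn hm => ?_⟩
  have hm' : n + 1 ≤ m := hm
  induction m, hm' using Int.leInduction with
  | base => exact hB n hn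
  | succ m hm ih => exact (ih (by omega)).trans (hB m (by omega))

lemma bdd_mid (D : ℚ[X]) (B : ℤ) : ∃ M : ℚ, ∀ n : ℤ, |n| ≤ B → |D.eval (n : ℚ)| ≤ M := by
  refine ⟨∑ n ∈ Finset.Icc (-B) B, |D.eval (n : ℚ)|, fun n hn => ?_⟩
  exact Finset.single_le_sum (f := fun n : ℤ => |D.eval (n : ℚ)|) (fun _ _ => abs_nonneg _)
    (Finset.mem_Icc.2 (abs_le.1 hn))

/-- reflection -/
noncomputable def refl (D : ℚ[X]) : ℚ[X] := D.comp (-X)

lemma refl_eval (D : ℚ[X]) (n : ℤ) : (refl D).eval (n : ℚ) = D.eval ((-n : ℤ) : ℚ) := by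
  simp [refl, eval_comp]

lemma refl_natDegree (D : ℚ[X]) : (refl D).natDegree = D.natDegree := by
  unfold refl
  rw [natDegree_comp, natDegree_neg, natDegree_X, mul_one]

lemma refl_coeff (D : ℚ[X]) (j : ℕ) : (refl D).coeff j = (-1) ^ j * D.coeff j := by
  unfold refl
  rw [← neg_one_mul, ← C_1, ← C_neg, comp_C_mul_X_coeff, mul_comm]

/-- one sided statement, odd case -/
lemma odd_right (D : ℚ[X]) (hd : 0 < D.natDegree) (h : 0 < D.leadingCoeff)
    (h' : 0 < (-(refl D)).leadingCoeff) :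
    ∃ B : ℤ, ∀ n : ℤ, B ≤ n → ∀ n' : ℤ, D.eval (n : ℚ) = D.eval (n' : ℚ) → n' = n := by
  obtain ⟨B₁, hB₁⟩ := ev_mono D hd h
  have hd' : 0 < (-(refl D)).natDegree := by rw [natDegree_neg, refl_natDegree]; exact hd
  obtain ⟨B₂, hB₂⟩ := ev_large (-(refl D)) hd' h' 0
  set B := max B₁ (max B₂ 0)
  have hb1 : B₁ ≤ B := le_max_left _ _
  have hb2 : B₂ ≤ B := (le_max_left _ _).trans (le_max_right _ _)
  obtain ⟨M, hM⟩ := bdd_mid D B
  obtain ⟨B₃, hB₃⟩ := ev_large D hd h (max M 0)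
  refine ⟨max B B₃, fun n hn n' he => ?_⟩
  have hn1 : B ≤ n := (le_max_left _ _).trans hn
  have hn2 := hB₃ n ((le_max_right _ _).trans hn)
  have h3 : B < |n'| := by
    by_contra hc
    have := (le_abs_self _).trans (hM n' (not_lt.1 hc))
    rw [← he] at this
    exact absurd (this.trans (le_max_left _ _)) (not_le.2 hn2)
  rcases le_or_gt 0 n' with h4 | h4
  · rw [abs_of_nonneg h4] at h3
    rcases lt_trichotomy n n' with h5 | h5 | h5
    · have := hB₁ n n' (hb1.trans hn1) h5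
      exact absurd he this.ne
    · exact h5.symm
    · have := hB₁ n' n (hb1.trans h3.le) h5
      exact absurd he this.ne'
  · exfalso
    rw [abs_of_neg h4] at h3
    have h5 := hB₂ (-n') (hb2.trans h3.le)
    rw [eval_neg, refl_eval, neg_neg, ← he] at h5
    have := (le_max_right M 0).trans hn2.le
    linarith

lemma odd_case (D : ℚ[X]) (hd : 0 < D.natDegree) (h : 0 < D.leadingCoeff)
    (h' : 0 < (-(refl D)).leadingCoeff) :
    ∃ B : ℤ, ∀ n : ℤ, B ≤ |n| → ∀ n' : ℤ, D.eval (n : ℚ) = D.eval (n' : ℚ) → n' = n := by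
  obtain ⟨B₁, hB₁⟩ := odd_right D hd h h'
  have hrr : refl (-(refl D)) = -D := by
    simp only [refl, neg_comp, comp_assoc, X_comp, neg_neg, comp_X]
  obtain ⟨B₂, hB₂⟩ := odd_right (-(refl D)) (by rw [natDegree_neg, refl_natDegree]; exact hd) h'
    (by rw [hrr, neg_neg]; exact h)
  refine ⟨max B₁ B₂, fun n hn n' he => ?_⟩
  rcases le_or_gt 0 n with h4 | h4
  · rw [abs_of_nonneg h4] at hn
    exact hB₁ n ((le_max_left _ _).trans hn) n' he
  · rw [abs_of_neg h4] at hn
    have := hB₂ (-n) ((le_max_right _ _).trans hn) (-n') (by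
      rw [eval_neg, eval_neg, refl_eval, refl_eval, neg_neg, neg_neg, he])
    omega

/-- `D(x) - D(-x-s)` -/
noncomputable def sh (D : ℚ[X]) (s : ℤ) : ℚ[X] := D - taylor (s : ℚ) (refl D)

lemma sh_eval (D : ℚ[X]) (s n : ℤ) :
    (sh D s).eval (n : ℚ) = D.eval (n : ℚ) - (refl D).eval ((n + s : ℤ) : ℚ) := by
  simp [sh, taylor_eval]

lemma sh_lead (D : ℚ[X]) (s : ℤ) (hd : 0 < D.natDegree) (hev : Even D.natDegree)
    (hne : 2 * D.coeff (D.natDegree - 1) - D.natDegree * D.leadingCoeff * s ≠ 0) :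
    (sh D s).leadingCoeff = 2 * D.coeff (D.natDegree - 1) - D.natDegree * D.leadingCoeff * s := by
  obtain ⟨d, hd'⟩ : ∃ d, D.natDegree = d + 1 := ⟨D.natDegree - 1, by omega⟩
  have hc : (refl D).coeff (d + 1) = D.coeff (d + 1) := by
    rw [refl_coeff, ← hd', hev.neg_one_pow, one_mul]
  have hodd : Odd d := by
    rw [hd'] at hev
    rcases Nat.even_or_odd d with h | h
    · exact absurd hev (by rw [Nat.even_add_one]; simpa using h)
    · exact h
  have hc' : (refl D).coeff d = - D.coeff d := by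
    rw [refl_coeff, hodd.neg_one_pow]; ring
  have hbig : ∀ j, d + 1 < j → (taylor (s : ℚ) (refl D)).coeff j = 0 := by
    intro j hj
    apply coeff_eq_zero_of_natDegree_lt
    rw [natDegree_taylor, refl_natDegree, hd']
    exact hj
  have htop : (taylor (s : ℚ) (refl D)).coeff (d + 1) = D.coeff (d + 1) := by
    have h1 := taylor_coeff (s : ℚ) (refl D) (d + 1)
    rw [h1]
    have h2 : (hasseDeriv (d + 1) (refl D)).natDegree ≤ 0 := by
      refine (natDegree_hasseDeriv_le _ _).trans ?_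
      rw [refl_natDegree, hd']; simp
    rw [eq_C_of_natDegree_le_zero h2, eval_C, hasseDeriv_coeff]
    simp [hc]
  have hd1 : (taylor (s : ℚ) (refl D)).coeff d = - D.coeff d + (d + 1) * D.coeff (d + 1) * s := by
    rw [taylor_coeff]
    have h2 : (hasseDeriv d (refl D)).natDegree < 2 := by
      refine lt_of_le_of_lt (natDegree_hasseDeriv_le _ _) ?_
      rw [refl_natDegree, hd']; omega
    rw [eval_eq_sum_range' h2, Finset.sum_range_succ, Finset.sum_range_succ, Finset.sum_range_zero,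
      hasseDeriv_coeff, hasseDeriv_coeff]
    rw [zero_add d, Nat.choose_self, hc', add_comm 1 d, Nat.choose_succ_self_right, hc]
    push_cast
    ring
  have hco : (sh D s).coeff d = 2 * D.coeff d - (d + 1) * D.coeff (d + 1) * s := by
    unfold sh
    rw [coeff_sub, hd1]; ring
  have hnd : (sh D s).natDegree ≤ d := by
    rw [natDegree_le_iff_coeff_eq_zero]
    intro j hj
    unfold sh
    rw [coeff_sub]
    rcases Nat.lt_or_ge (d + 1) j with h | h
    · rw [hbig j h, coeff_eq_zero_of_natDegree_lt (by omega), sub_zero]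
    · obtain rfl : j = d + 1 := by omega
      rw [htop, sub_self]
  have hl : D.leadingCoeff = D.coeff (d + 1) := by rw [leadingCoeff, hd']
  have hsub : D.natDegree - 1 = d := by omega
  rw [hsub, hl, hd'] at hne ⊢
  push_cast at hne ⊢
  have hnd' : (sh D s).natDegree = d := by
    refine le_antisymm hnd (le_natDegree_of_ne_zero ?_)
    rw [hco]; exact hne
  rw [leadingCoeff, hnd', hco]

lemma even_right (D : ℚ[X]) (hd : 0 < D.natDegree) (h : 0 < D.leadingCoeff)
    (hev : Even D.natDegree) :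
    ∃ s B : ℤ, ∀ n : ℤ, B ≤ n → ∀ n' : ℤ, D.eval (n : ℚ) = D.eval (n' : ℚ) →
      n' = n ∨ (sh D s = 0 ∧ -n' = n + s) := by
  have hl' : 0 < (refl D).leadingCoeff := by
    rw [leadingCoeff, refl_natDegree, refl_coeff, hev.neg_one_pow, one_mul]
    exact h
  have hd' : 0 < (refl D).natDegree := by rw [refl_natDegree]; exact hd
  obtain ⟨B₁, hB₁⟩ := ev_mono D hd h
  obtain ⟨B₂, hB₂⟩ := ev_mono (refl D) hd' hl'
  set a : ℚ := D.natDegree * D.leadingCoeff with ha
  have hapos : 0 < a := mul_pos (by exact_mod_cast hd) h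
  set β : ℚ := 2 * D.coeff (D.natDegree - 1) with hβ
  set s : ℤ := ⌈β / a⌉ with hs
  have hs1 : ((s - 1 : ℤ) : ℚ) < β / a := by
    have := Int.ceil_lt_add_one (β / a)
    push_cast
    rw [← hs] at this
    linarith
  have hs2 : β / a < ((s + 1 : ℤ) : ℚ) := by
    have := Int.le_ceil (β / a)
    push_cast
    rw [← hs] at this
    linarith
  have hp : 0 < β - a * ((s - 1 : ℤ) : ℚ) := by
    have := (lt_div_iff₀ hapos).1 hs1
    linarith
  have hm : β - a * ((s + 1 : ℤ) : ℚ) < 0 := by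
    have := (div_lt_iff₀ hapos).1 hs2
    linarith
  have hl1 := sh_lead D (s - 1) hd hev hp.ne'
  have hl2 := sh_lead D (s + 1) hd hev hm.ne
  obtain ⟨B₃, hB₃⟩ := ev_pos (sh D (s - 1)) (by rw [hl1]; exact hp)
  obtain ⟨B₄, hB₄⟩ := ev_pos (-(sh D (s + 1))) (by rw [leadingCoeff_neg, hl2]; linarith)
  have h5 : ∃ B₅ : ℤ, ∀ n : ℤ, B₅ ≤ n → (sh D s).eval (n : ℚ) = 0 → sh D s = 0 := by
    by_cases h0 : sh D s = 0
    · exact ⟨0, fun _ _ _ => h0⟩
    · rcases lt_or_gt_of_ne (leadingCoeff_ne_zero.2 h0) with h1 | h1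
      · obtain ⟨B, hB⟩ := ev_pos (-(sh D s)) (by rw [leadingCoeff_neg]; linarith)
        exact ⟨B, fun n hn he => by have := hB n hn; rw [eval_neg, he] at this; linarith⟩
      · obtain ⟨B, hB⟩ := ev_pos (sh D s) h1
        exact ⟨B, fun n hn he => by have := hB n hn; rw [he] at this; linarith⟩
  obtain ⟨B₅, hB₅⟩ := h5
  set B := max B₁ (max B₂ 0)
  have hb1 : B₁ ≤ B := le_max_left _ _
  have hb2 : B₂ ≤ B := (le_max_left _ _).trans (le_max_right _ _)
  obtain ⟨M, hM⟩ := bdd_mid D B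
  obtain ⟨B₆, hB₆⟩ := ev_large D hd h M
  refine ⟨s, max B (max B₃ (max B₄ (max B₅ (max B₆ (max (B₂ - s + 1) 0))))), fun n hn n' he => ?_⟩
  simp only [max_le_iff] at hn
  obtain ⟨hn1, hn3, hn4, hn5, hn6, hn7, hn8⟩ := hn
  have hn2 := hB₆ n hn6
  have h3 : B < |n'| := by
    by_contra hc
    have := (le_abs_self _).trans (hM n' (not_lt.1 hc))
    rw [← he] at this
    exact absurd this (not_le.2 hn2)
  rcases le_or_gt 0 n' with h4 | h4
  · left
    rw [abs_of_nonneg h4] at h3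
    rcases lt_trichotomy n n' with h5 | h5 | h5
    · have := hB₁ n n' (hb1.trans hn1) h5
      exact absurd he this.ne
    · exact h5.symm
    · have := hB₁ n' n (hb1.trans h3.le) h5
      exact absurd he this.ne'
  · right
    rw [abs_of_neg h4] at h3
    have e1 : D.eval (n : ℚ) = (refl D).eval ((-n' : ℤ) : ℚ) := by
      rw [refl_eval, neg_neg, he]
    have hm' : B₂ ≤ -n' := hb2.trans h3.le
    have k1 := hB₃ n hn3
    rw [sh_eval, e1] at k1
    have k2 := hB₄ n hn4
    rw [eval_neg, sh_eval, e1] at k2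
    have k3 : n + (s - 1) < -n' := by
      by_contra hc
      rcases eq_or_lt_of_le (not_lt.1 hc) with h6 | h6
      · rw [h6] at k1; linarith
      · have := hB₂ _ _ hm' h6
        linarith
    have k4 : -n' < n + (s + 1) := by
      by_contra hc
      rcases eq_or_lt_of_le (not_lt.1 hc) with h6 | h6
      · rw [h6] at k2; linarith
      · have := hB₂ _ _ (by omega) h6
        linarith
    have k5 : -n' = n + s := by omega
    refine ⟨hB₅ n hn5 ?_, k5⟩
    rw [sh_eval, e1, k5, sub_self]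

lemma even_case (D : ℚ[X]) (hd : 0 < D.natDegree) (h : 0 < D.leadingCoeff)
    (hev : Even D.natDegree) :
    ∃ s B : ℤ, ∀ n : ℤ, B ≤ |n| → ∀ n' : ℤ, D.eval (n : ℚ) = D.eval (n' : ℚ) →
      n' = n ∨ (sh D s = 0 ∧ -n' = n + s) := by
  obtain ⟨s, B₁, hB₁⟩ := even_right D hd h hev
  have hl' : 0 < (refl D).leadingCoeff := by
    rw [leadingCoeff, refl_natDegree, refl_coeff, hev.neg_one_pow, one_mul]
    exact h
  have hd' : 0 < (refl D).natDegree := by rw [refl_natDegree]; exact hd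
  obtain ⟨B₂, hB₂⟩ := ev_mono (refl D) hd' hl'
  set B := max B₁ (max B₂ 0)
  have hb1 : B₁ ≤ B := le_max_left _ _
  have hb2 : B₂ ≤ B := (le_max_left _ _).trans (le_max_right _ _)
  have hb3 : 0 ≤ B := (le_max_right _ _).trans (le_max_right _ _)
  obtain ⟨M, hM⟩ := bdd_mid D B
  obtain ⟨B₃, hB₃⟩ := ev_large (refl D) hd' hl' M
  refine ⟨s, max B B₃, fun n hn n' he => ?_⟩
  simp only [max_le_iff] at hn
  obtain ⟨hn1, hn3⟩ := hn
  rcases le_or_gt 0 n with h4 | h4
  · rw [abs_of_nonneg h4] at hn1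
    exact hB₁ n (hb1.trans hn1) n' he
  · rw [abs_of_neg h4] at hn1 hn3
    have hn2 := hB₃ (-n) hn3
    rw [refl_eval, neg_neg] at hn2
    have h3 : B < |n'| := by
      by_contra hc
      have := (le_abs_self _).trans (hM n' (not_lt.1 hc))
      rw [← he] at this
      exact absurd this (not_le.2 hn2)
    rcases le_or_gt 0 n' with h5 | h5
    · rw [abs_of_nonneg h5] at h3
      rcases hB₁ n' (hb1.trans h3.le) n he.symm with h6 | h6
      · left; omega
      · right
        exact ⟨h6.1, by omega⟩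
    · left
      rw [abs_of_neg h5] at h3
      have e1 : (refl D).eval ((-n : ℤ) : ℚ) = (refl D).eval ((-n' : ℤ) : ℚ) := by
        rw [refl_eval, refl_eval, neg_neg, neg_neg, he]
      rcases lt_trichotomy (-n) (-n') with h7 | h7 | h7
      · have := hB₂ _ _ (hb2.trans hn1) h7
        linarith
      · omega
      · have := hB₂ _ _ (hb2.trans h3.le) h7
        linarith

lemma pos_case (D : ℚ[X]) (hd : 0 < D.natDegree) (h : 0 < D.leadingCoeff) :
    (∃ B : ℤ, ∀ n : ℤ, B ≤ |n| → ∀ n' : ℤ, D.eval (n : ℚ) = D.eval (n' : ℚ) → n' = n) ∨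
    ∃ c : ℤ, (∀ n : ℤ, D.eval (n : ℚ) = D.eval ((c - n : ℤ) : ℚ)) ∧
      ∃ B : ℤ, ∀ n : ℤ, B ≤ |n| → ∀ n' : ℤ, D.eval (n : ℚ) = D.eval (n' : ℚ) →
        n' = n ∨ n' = c - n := by
  rcases Nat.even_or_odd D.natDegree with hev | hodd
  · obtain ⟨s, B, hB⟩ := even_case D hd h hev
    by_cases h0 : sh D s = 0
    · right
      refine ⟨-s, fun n => ?_, B, fun n hn n' he => ?_⟩
      · have := sh_eval D s n
        rw [h0, eval_zero, refl_eval] at this
        rw [show (-s - n : ℤ) = -(n + s) by ring]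
        linarith
      · rcases hB n hn n' he with h1 | h1
        · exact Or.inl h1
        · right; omega
    · left
      refine ⟨B, fun n hn n' he => ?_⟩
      rcases hB n hn n' he with h1 | h1
      · exact h1
      · exact absurd h1.1 h0
  · left
    apply odd_case D hd h
    rw [leadingCoeff_neg, leadingCoeff, refl_natDegree, refl_coeff, hodd.neg_one_pow]
    have : 0 < D.coeff D.natDegree := h
    linarith

/-- **Two integers at which a polynomial takes the same value.** -/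
theorem one_poly (D : ℚ[X]) (hd : 0 < D.natDegree) :
    (∃ B : ℤ, ∀ n : ℤ, B ≤ |n| → ∀ n' : ℤ, D.eval (n : ℚ) = D.eval (n' : ℚ) → n' = n) ∨
    ∃ c : ℤ, (∀ n : ℤ, D.eval (n : ℚ) = D.eval ((c - n : ℤ) : ℚ)) ∧
      ∃ B : ℤ, ∀ n : ℤ, B ≤ |n| → ∀ n' : ℤ, D.eval (n : ℚ) = D.eval (n' : ℚ) →
        n' = n ∨ n' = c - n := by
  have hne : D.leadingCoeff ≠ 0 := by
    intro h
    rw [leadingCoeff_eq_zero] at h
    rw [h, natDegree_zero] at hd
    exact lt_irrefl _ hd
  rcases lt_or_gt_of_ne hne with h | h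
  · have := pos_case (-D) (by rwa [natDegree_neg]) (by rw [leadingCoeff_neg]; linarith)
    simpa only [eval_neg, neg_inj] using this
  · exact pos_case D hd h

/-- the same for a set of polynomials -/
theorem tri {ι : Type*} (p : ι → ℚ[X]) :
    (∀ (n n' : ℤ) i, (p i).eval (n : ℚ) = (p i).eval (n' : ℚ)) ∨
    (∃ B : ℤ, ∀ n : ℤ, B ≤ |n| → ∀ n' : ℤ,
      (∀ i, (p i).eval (n : ℚ) = (p i).eval (n' : ℚ)) → n' = n) ∨
    ∃ c : ℤ, (∀ (n : ℤ) i, (p i).eval (n : ℚ) = (p i).eval ((c - n : ℤ) : ℚ)) ∧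
      ∃ B : ℤ, ∀ n : ℤ, B ≤ |n| → ∀ n' : ℤ,
        (∀ i, (p i).eval (n : ℚ) = (p i).eval (n' : ℚ)) → n' = n ∨ n' = c - n := by
  by_cases hall : ∀ i, (p i).natDegree = 0
  · left
    intro n n' i
    rw [eq_C_of_natDegree_eq_zero (hall i), eval_C, eval_C]
  right
  push Not at hall
  obtain ⟨i₀, hi₀⟩ := hall
  rcases one_poly (p i₀) (Nat.pos_of_ne_zero hi₀) with ⟨B, hB⟩ | ⟨c, hc, B, hB⟩
  · left
    exact ⟨B, fun n hn n' he => hB n hn n' (he i₀)⟩
  by_cases hs : ∀ (n : ℤ) i, (p i).eval (n : ℚ) = (p i).eval ((c - n : ℤ) : ℚ)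
  · right
    exact ⟨c, hs, B, fun n hn n' he => hB n hn n' (he i₀)⟩
  left
  push Not at hs
  obtain ⟨n₁, i₁, h₁⟩ := hs
  have hd1 : 0 < (p i₁).natDegree := by
    apply Nat.pos_of_ne_zero
    intro h0
    apply h₁
    rw [eq_C_of_natDegree_eq_zero h0, eval_C, eval_C]
  rcases one_poly (p i₁) hd1 with ⟨B', hB'⟩ | ⟨c', hc', B', hB'⟩
  · exact ⟨B', fun n hn n' he => hB' n hn n' (he i₁)⟩
  · refine ⟨max B B', fun n hn n' he => ?_⟩
    have hcc : c ≠ c' := by
      rintro rfl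
      exact h₁ (hc' n₁)
    rcases hB n ((le_max_left _ _).trans hn) n' (he i₀) with h2 | h2
    · exact h2
    · rcases hB' n ((le_max_right _ _).trans hn) n' (he i₁) with h3 | h3
      · exact h3
      · exact absurd (by omega) hcc

end Pool.Agent.Q302.LM
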