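import Pool.Agent.Q302.LM.Model
import Pool.Agent.Q302.LM.Core
import Pool.Agent.Q302.LM.PolyPair

/-!
# Finite type invariants on word families are polynomials
-/

set_option autoImplicit false

namespace Pool.Agent.Q302.LM

open MvPolynomial

lemma alt_eq {G : Type*} [Group G] (w : G → ℚ) (l : List G) (h : G) :
    alt w l h = alternatingSum w l h := by
  induction l generalizing h with
  | nil => rfl
  | cons f l ih => simp only [alt, alternatingSum, ih]

lemma FiniteType.kill {m : ℕ} {v : Sphere → ℚ} (hv : FiniteType m v) (g : ℕ) :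
    Kill m (fun φ : Torelli g => v ⟨g, φ⟩) := by
  intro l hl h
  rw [alt_eq]
  exact hv.2 g l hl h

lemma FiniteType.mono {m m' : ℕ} (h : m ≤ m') {v : Sphere → ℚ} (hv : FiniteType m v) :
    FiniteType m' v := by
  refine ⟨hv.1, fun g l hl x => ?_⟩
  rw [← alt_eq]
  exact (hv.kill g).mono h l hl x

lemma member_poly {k : ℕ} (P : WordFamily k) {m : ℕ} {v : Sphere → ℚ} (hv : FiniteType m v) :
    ∃ p : MvPolynomial (Fin k) ℚ, ∀ n, v (P.member n) = eval (fun i => (n i : ℚ)) p := by
  obtain ⟨p, hp⟩ := poly_val P.word (hv.kill P.genus)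
  exact ⟨p, fun n => hp n⟩

/-- finitely many finite type invariants decide -/
theorem two_families {k k' : ℕ} (P : WordFamily k) (P' : WordFamily k') :
    ∃ (m r : ℕ) (v : Fin r → Sphere → ℚ) (p : Fin r → MvPolynomial (Fin k) ℚ)
      (p' : Fin r → MvPolynomial (Fin k') ℚ),
      (∀ i, FiniteType m (v i)) ∧
      (∀ i n, v i (P.member n) = eval (fun j => (n j : ℚ)) (p i)) ∧
      (∀ i n, v i (P'.member n) = eval (fun j => (n j : ℚ)) (p' i)) ∧
      ∀ n n', SameLMO (P.member n) (P'.member n') ↔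
        ∀ i, v i (P.member n) = v i (P'.member n') := by
  classical
  let ι := {t : ℕ × (Sphere → ℚ) // FiniteType t.1 t.2}
  have h1 : ∀ t : ι, ∃ p : MvPolynomial (Fin k) ℚ, ∀ n, t.1.2 (P.member n) =
      eval (fun i => (n i : ℚ)) p := fun t => member_poly P t.2
  have h2 : ∀ t : ι, ∃ p : MvPolynomial (Fin k') ℚ, ∀ n, t.1.2 (P'.member n) =
      eval (fun i => (n i : ℚ)) p := fun t => member_poly P' t.2
  choose p hp using h1
  choose p' hp' using h2
  let pp : ι → MvPolynomial (Fin k ⊕ Fin k') ℚ := fun t =>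
    rename Sum.inl (p t) - rename Sum.inr (p' t)
  have hpp : ∀ (t : ι) n n', eval (Sum.elim (fun i => (n i : ℚ)) (fun i => (n' i : ℚ))) (pp t) =
      t.1.2 (P.member n) - t.1.2 (P'.member n') := by
    intro t n n'
    simp only [pp, map_sub, eval_rename]
    rw [hp, hp']
    rfl
  obtain ⟨m, S, hS, h⟩ := noeth (fun t : ι => t.1.1) pp
  have hS' : ∀ q : S, ∃ t : ι, t.1.1 ≤ m ∧ pp t = q := fun q => hS q q.2
  choose f hf hf' using hS'
  let e := S.equivFin.symm
  refine ⟨m, S.card, fun i => (f (e i)).1.2, fun i => p (f (e i)), fun i => p' (f (e i)),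
    fun i => (f (e i)).2.mono (hf _), fun i n => hp _ n, fun i n => hp' _ n, fun n n' =>
      ⟨fun hs i => hs _ _ (f (e i)).2, fun hs j v hv => ?_⟩⟩
  have h3 : ∀ q ∈ S, eval (Sum.elim (fun i => (n i : ℚ)) (fun i => (n' i : ℚ))) q = 0 := by
    intro q hq
    have h4 := hs (e.symm ⟨q, hq⟩)
    simp only [Equiv.apply_symm_apply] at h4
    have h5 := hpp (f ⟨q, hq⟩) n n'
    rw [h4, sub_self, show pp (f ⟨q, hq⟩) = q from hf' ⟨q, hq⟩] at h5
    exact h5
  have := h _ h3 ⟨(j, v), hv⟩
  rw [hpp] at this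
  exact sub_eq_zero.1 this

/-- the trichotomy -/
theorem one_parameter (P : WordFamily 1) :
    (∀ n n' : ℤ, SameLMO (P.member fun _ => n) (P.member fun _ => n')) ∨
    (∃ E : Finset ℤ, ∀ n ∉ E, ∀ n' : ℤ,
      SameLMO (P.member fun _ => n) (P.member fun _ => n') → n' = n) ∨
    ∃ c : ℤ, (∀ n : ℤ, SameLMO (P.member fun _ => n) (P.member fun _ => c - n)) ∧
      ∃ E : Finset ℤ, ∀ n ∉ E, ∀ n' : ℤ,
        SameLMO (P.member fun _ => n) (P.member fun _ => n') → n' = n ∨ n' = c - n := by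
  classical
  let ι := {t : ℕ × (Sphere → ℚ) // FiniteType t.1 t.2}
  have h1 : ∀ t : ι, ∃ p : Polynomial ℚ, ∀ n : ℤ, t.1.2 (P.member fun _ => n) =
      p.eval (n : ℚ) := by
    intro t
    obtain ⟨p, hp⟩ := member_poly P t.2
    refine ⟨aeval (fun _ => (Polynomial.X : Polynomial ℚ)) p, fun n => ?_⟩
    rw [hp]
    rw [← Polynomial.coe_evalRingHom, aeval_def, hom_eval₂]
    have h4 : (Polynomial.evalRingHom (n : ℚ)).comp (algebraMap ℚ (Polynomial ℚ)) =
      RingHom.id ℚ := Subsingleton.elim _ _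
    have h5 : (Polynomial.evalRingHom (n : ℚ)) (Polynomial.X : Polynomial ℚ) = (n : ℚ) := by
      simp only [Polynomial.coe_evalRingHom, Polynomial.eval_X]
    rw [h4, h5]
    rfl
  choose p hp using h1
  have hiff : ∀ n n' : ℤ, SameLMO (P.member fun _ => n) (P.member fun _ => n') ↔
      ∀ t, (p t).eval (n : ℚ) = (p t).eval (n' : ℚ) := by
    intro n n'
    constructor
    · intro h t
      rw [← hp, ← hp]
      exact h _ _ t.2
    · intro h m v hv
      have := h ⟨(m, v), hv⟩
      rw [← hp, ← hp] at this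
      exact this
  have hfin : ∀ B n : ℤ, n ∉ Finset.Icc (-B) B → B ≤ |n| := by
    intro B n hn
    rw [Finset.mem_Icc, ← abs_le, not_le] at hn
    exact hn.le
  rcases tri p with h | ⟨B, hB⟩ | ⟨c, hc, B, hB⟩
  · left
    exact fun n n' => (hiff n n').2 (h n n')
  · right; left
    exact ⟨Finset.Icc (-B) B, fun n hn n' h => hB n (hfin B n hn) n' ((hiff n n').1 h)⟩
  · right; right
    refine ⟨c, fun n => (hiff _ _).2 fun t => ?_, Finset.Icc (-B) B,
      fun n hn n' h => hB n (hfin B n hn) n' ((hiff n n').1 h)⟩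
    exact hc n t

end Pool.Agent.Q302.LM
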