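import Mathlib

/-!
# Integral homology spheres through the Torelli groups, finite type invariants, word families

By Morita, every oriented integral homology 3-sphere is obtained from the standard Heegaard
splitting of the 3-sphere of some genus `g` by regluing with an element of the Torelli group of the
surface of genus `g` with one boundary circle, and two elements give homeomorphic homology spheres
if and only if they are related by `Step` below (double cosets of the two handlebody groups, and
stabilization).
-/

set_option autoImplicit false

namespace Pool.Agent.Q302.LM

/-- The fundamental group of the surface of genus `g` with one boundary circle: the free group on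
the curves `a_i = (i, false)` and `b_i = (i, true)`, `i < g`. -/
abbrev SurfaceGroup (g : ℕ) : Type := FreeGroup (Fin g × Bool)

/-- The boundary circle `[a_0, b_0] [a_1, b_1] ⋯ [a_(g-1), b_(g-1)]`. -/
def boundary (g : ℕ) : SurfaceGroup g :=
  (List.ofFn fun i : Fin g => FreeGroup.of (i, false) * FreeGroup.of (i, true) *
    (FreeGroup.of (i, false))⁻¹ * (FreeGroup.of (i, true))⁻¹).prod

/-- The Torelli group of the surface of genus `g` with one boundary circle: the automorphisms of
the surface group which fix the boundary circle (these form the mapping class group) and act
trivially on the abelianization, the homology of the surface. -/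
def Torelli (g : ℕ) : Subgroup (MulAut (SurfaceGroup g)) where
  carrier := {φ | φ (boundary g) = boundary g ∧
    ∀ x, Abelianization.of (φ x) = Abelianization.of x}
  mul_mem' := by
    rintro a b ⟨ha, ha'⟩ ⟨hb, hb'⟩
    exact ⟨by rw [MulAut.mul_apply, hb, ha], fun x => by rw [MulAut.mul_apply, ha', hb']⟩
  one_mem' := ⟨rfl, fun _ => rfl⟩
  inv_mem' := by
    rintro a ⟨ha, ha'⟩
    refine ⟨?_, fun x => ?_⟩
    · conv_lhs => rw [← ha]
      exact MulAut.inv_apply_self _ a _
    · conv_rhs => rw [← MulAut.apply_inv_self _ a x]
      exact (ha' _).symm

/-- The kernel of the map to the fundamental group of the handlebody in which the curves `(i, c)`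
bound discs. -/
def discKernel (g : ℕ) (c : Bool) : Subgroup (SurfaceGroup g) :=
  Subgroup.normalClosure (Set.range fun i : Fin g => FreeGroup.of (i, c))

/-- The mapping classes which extend over this handlebody. -/
def Extends (g : ℕ) (c : Bool) (φ : MulAut (SurfaceGroup g)) : Prop :=
  φ (boundary g) = boundary g ∧ (discKernel g c).map φ.toMonoidHom = discKernel g c

/-- An integral homology sphere: a genus and an element of the Torelli group. -/
abbrev Sphere : Type := Σ g : ℕ, Torelli g

/-- The inclusion of the surface of genus `g` into the surface of genus `g + 1`. -/
def inclusion (g : ℕ) : SurfaceGroup g →* SurfaceGroup (g + 1) :=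
  FreeGroup.map fun p => (p.1.castSucc, p.2)

/-- `ψ` is the extension of `φ` by the identity on the last handle. -/
def IsStabilization {g : ℕ} (φ : MulAut (SurfaceGroup g)) (ψ : MulAut (SurfaceGroup (g + 1))) :
    Prop :=
  (∀ x, ψ (inclusion g x) = inclusion g (φ x)) ∧
    ∀ c : Bool, ψ (FreeGroup.of (Fin.last g, c)) = FreeGroup.of (Fin.last g, c)

/-- The two moves between elements which give the same homology sphere: multiplication on the left
by a mapping class which extends over one handlebody and on the right by one which extends over the
other; and adding a trivial handle. -/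
inductive Step : Sphere → Sphere → Prop
  | reglue {g : ℕ} (φ ψ : Torelli g) (a b : MulAut (SurfaceGroup g))
      (ha : Extends g false a) (hb : Extends g true b)
      (h : ψ.1 = a * φ.1 * b) : Step ⟨g, φ⟩ ⟨g, ψ⟩
  | stabilize {g : ℕ} (φ : Torelli g) (ψ : Torelli (g + 1))
      (h : IsStabilization φ.1 ψ.1) : Step ⟨g, φ⟩ ⟨g + 1, ψ⟩

/-- A rational invariant of integral homology spheres. -/
def IsInvariant (v : Sphere → ℚ) : Prop := ∀ M N, Step M N → v M = v N

/-- The alternating sum `∑ (-1)^(m - |ε|) w (h f_1^{ε_1} ... f_m^{ε_m})` over `ε ∈ {0,1}^m`. -/
def alternatingSum {G : Type*} [Group G] (w : G → ℚ) : List G → G → ℚ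
  | [], h => w h
  | f :: l, h => alternatingSum w l (h * f) - alternatingSum w l h

/-- Rational finite type invariants of degree at most `m` for the Torelli filtration: invariants all
whose alternating sums with `m + 1` elements of a Torelli group vanish. -/
def FiniteType (m : ℕ) (v : Sphere → ℚ) : Prop :=
  IsInvariant v ∧ ∀ (g : ℕ) (l : List (Torelli g)), l.length = m + 1 →
    ∀ h : Torelli g, alternatingSum (fun φ => v ⟨g, φ⟩) l h = 0

/-- All rational finite type invariants agree on the two homology spheres. By the universality of
the LMO invariant (Le), this says that they have the same LMO invariant. -/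
def SameLMO (M N : Sphere) : Prop := ∀ m v, FiniteType m v → v M = v N

/-- The value `∏ h_i f_i^{e_i(n)}` of a word with polynomial exponents in a group. -/
noncomputable def wordValue {G : Type*} [Group G] {k : ℕ}
    (L : List (G × G × MvPolynomial (Fin k) ℤ)) (n : Fin k → ℤ) : G :=
  (L.map fun t => t.1 * t.2.1 ^ MvPolynomial.eval n t.2.2).prod

/-- A word with polynomial exponents: a genus `g` and triples `(h_i, f_i, e_i)` of two elements of
the Torelli group and a polynomial `e_i` in `k` variables with integer coefficients. -/
structure WordFamily (k : ℕ) where
  /-- the genus -/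
  genus : ℕ
  /-- the letters -/
  word : List (Torelli genus × Torelli genus × MvPolynomial (Fin k) ℤ)

/-- The member with parameter `n ∈ ℤ^k`: the homology sphere of `∏ h_i f_i^{e_i(n)}`. -/
noncomputable def WordFamily.member {k : ℕ} (P : WordFamily k) (n : Fin k → ℤ) : Sphere :=
  ⟨P.genus, wordValue P.word n⟩

end Pool.Agent.Q302.LM
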